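import Pool.Agent.Helper73.DC.St7

/-! # Project DC (helper73), MP_26f0da_lc: module D3, the kinds of the nodes -/

set_option autoImplicit false

namespace Pool.Agent.Helper41.DC

open Pool.Agent.Helper73.DC
open Finset
open scoped Classical

private theorem lett_some_D3 {α : Type} [Fintype α] (w : List α) (i : ℕ) (a : α)
    (h : w[i]? = some a) : lett w i = cd a + 1 := by
  unfold lett
  rw [h]

private theorem lett_zero_D3 {α : Type} [Fintype α] (w : List α) (i : ℕ) (hi : i ≤ w.length) :
    lett w i = 0 ↔ i = w.length := by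
  constructor
  · intro h
    by_contra hne
    have hlt : i < w.length := lt_of_le_of_ne hi hne
    rw [lett_some_D3 w i _ (List.getElem?_eq_getElem hlt)] at h
    omega
  · intro h
    have : w[i]? = none := List.getElem?_eq_none (by omega)
    unfold lett
    rw [this]

private theorem lett_inv_D3 {α : Type} [Fintype α] (w : List α) (i : ℕ) (a : α)
    (h : lett w i = cd a + 1) : w[i]? = some a := by
  cases h1 : w[i]? with
  | none =>
    unfold lett at h
    rw [h1] at h
    simp at h
  | some b =>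
    rw [lett_some_D3 w i b h1] at h
    have h2 : cd b = cd a := by omega
    unfold cd at h2
    have h3 : b = a := (Fintype.equivFin α).injective (Fin.ext h2)
    rw [h3]

private theorem base_D3 (T : Tab) (n t i : ℕ) (ht : t < T.F) (hi : i ≤ n) :
    (t * (n + 1) + i) / (n + 1) = t ∧ (t * (n + 1) + i) % (n + 1) = i ∧ t * (n + 1) + i < T.ac n := by
  have h1 : i < n + 1 := by omega
  refine ⟨?_, ?_, ?_⟩
  · rw [mul_comm, Nat.mul_add_div (by omega), Nat.div_eq_of_lt h1]
    rfl
  · rw [mul_comm, Nat.mul_add_mod, Nat.mod_eq_of_lt h1]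
  · unfold Tab.ac
    have : (t + 1) * (n + 1) ≤ T.F * (n + 1) := Nat.mul_le_mul_right _ ht
    rw [add_mul] at this
    omega

private theorem kd_D3 {α : Type} [Fintype α] (T : Tab) (w : List α) (t i : ℕ) (ht : t < T.F)
    (hi : i ≤ w.length) : T.kd w (t * (w.length + 1) + i) = T.tk t (lett w i) := by
  obtain ⟨h1, h2, h3⟩ := base_D3 T w.length t i ht hi
  unfold Tab.kd
  rw [if_pos h3, h1, h2]

theorem mD3 : StD3 := by
  intro α _ M T K num qn hD w i hi
  have hNQ : 0 < T.NQ := lt_of_le_of_lt (Nat.zero_le _) (T.hq 0)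
  have h1K : ∀ Z : M.Γ, [Z].length ≤ K := fun Z => by simpa using hD.hK
  have hz := lett_zero_D3 w i hi
  have key : ∀ q β, β.length ≤ K →
      (nde M num w.length q β i) / (w.length + 1) = num q β ∧
      (nde M num w.length q β i) % (w.length + 1) = i ∧
      T.kd w (nde M num w.length q β i) = T.tk (num q β) (lett w i) := by
    intro q β hβ
    obtain ⟨h1, h2, h3⟩ := base_D3 T w.length (num q β) i (hD.hnum q β hβ) hi
    exact ⟨h1, h2, kd_D3 T w _ i (hD.hnum q β hβ) hi⟩
  have hr0 : ∀ x, rsb T w x 0 = T.rs w x 0 := by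
    intro x
    unfold rsb
    rw [if_pos]
    simpa using hNQ
  refine ⟨?_, ?_, ?_, ?_, ?_, ?_, ?_, ?_, ?_⟩
  · intro q β hβ hin ha
    obtain ⟨k1, k2, k3⟩ := key q β hβ
    have h0 : lett w i = 0 := hz.2 hin
    rw [h0, hD.kacc q β hβ ha] at k3
    unfold Tab.lf
    rw [if_pos k3]
  · intro q hn
    obtain ⟨k1, k2, k3⟩ := key q [] (by simp)
    have hn' : ¬ (lett w i = 0 ∧ M.acc q) := by rw [hz]; exact hn
    obtain ⟨e1, e2⟩ := hD.knil q (lett w i) hn'
    rw [e1] at k3
    unfold Tab.lf
    rw [if_neg (by rw [k3]; norm_num), if_pos k3, k1, k2, e2]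
  · intro q Z q' γ r hn he
    obtain ⟨k1, k2, k3⟩ := key q [Z] (h1K Z)
    have hn' : ¬ (lett w i = 0 ∧ M.acc q) := by rw [hz]; exact hn
    obtain ⟨e1, e2⟩ := hD.kep q Z q' γ (lett w i) hn' he
    rw [e1] at k3
    have hrs : rsb T w (nde M num w.length q [Z] i) 0 = nde M num w.length q' γ i := by
      rw [hr0]
      unfold Tab.rs
      rw [if_pos k3, k1, k2, e2]
      rfl
    refine ⟨?_, ?_, hrs, ?_, ?_⟩
    · unfold Tab.lf
      rw [if_neg (by rw [k3]; norm_num), if_neg (by rw [k3]; norm_num)]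
    · unfold Tab.cl
      rw [if_neg (by rw [k3]; norm_num), if_neg (by rw [k3]; norm_num)]
    · unfold Tab.wt
      rw [if_neg (by rw [k3]; norm_num)]
    · intro hr
      rw [hr]
      exact hrs
  · intro q Z q' γ a hw ht
    obtain ⟨k1, k2, k3⟩ := key q [Z] (h1K Z)
    have hl := lett_some_D3 w i a hw
    obtain ⟨e1, e2⟩ := hD.ktr q Z q' γ a ht
    have hlt : i < w.length := by
      by_contra hge
      rw [List.getElem?_eq_none (by omega)] at hw
      simp at hw
    rw [hl, e1] at k3
    refine ⟨?_, ?_, ?_, ?_⟩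
    · unfold Tab.lf
      rw [if_neg (by rw [k3]; norm_num), if_neg (by rw [k3]; norm_num)]
    · unfold Tab.cl
      rw [if_neg (by rw [k3]; norm_num), if_neg (by rw [k3]; norm_num)]
    · rw [hr0]
      unfold Tab.rs
      rw [if_neg (by rw [k3]; norm_num), if_pos k3, k1, k2, hl, e2, min_eq_left (by omega)]
      rfl
    · unfold Tab.wt
      rw [if_pos (Or.inl k3)]
  · intro q Z hn he ht
    obtain ⟨k1, k2, k3⟩ := key q [Z] (h1K Z)
    have hn' : ¬ (lett w i = 0 ∧ M.acc q) := by rw [hz]; exact hn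
    have e1 := hD.kst q Z (lett w i) hn' he (fun a ha => ht a (lett_inv_D3 w i a ha))
    rw [e1] at k3
    refine ⟨?_, ?_⟩
    · unfold Tab.lf
      rw [if_neg (by rw [k3]; norm_num), if_neg (by rw [k3]; norm_num)]
    · unfold Tab.cl
      rw [if_neg (by rw [k3]; norm_num), if_pos k3]
  · intro q Z Y β hβ hn
    obtain ⟨k1, k2, k3⟩ := key q (Z :: Y :: β) hβ
    have hn' : ¬ (lett w i = 0 ∧ M.acc q) := by rw [hz]; exact hn
    obtain ⟨e1, e2, e3⟩ := hD.ksq q Z Y β (lett w i) hβ hn'
    rw [e1] at k3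
    refine ⟨?_, ?_, ?_, ?_, ?_⟩
    · unfold Tab.lf
      rw [if_neg (by rw [k3]; norm_num), if_neg (by rw [k3]; norm_num)]
    · unfold Tab.cl
      rw [if_pos k3, k1, k2, e2]
      rfl
    · unfold Tab.wt
      rw [if_neg (by rw [k3]; norm_num)]
    · rw [hr0]
      unfold Tab.rs
      rw [if_neg (by rw [k3]; norm_num), if_neg (by rw [k3]; norm_num),
        if_neg (by rw [k3]; norm_num), if_neg (by simp)]
    · intro q' j hj
      have hj1 : j < w.length + 1 := by omega
      have d1 : (qn q' * (w.length + 1) + j + 1 - 1) / (w.length + 1) = qn q' := by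
        rw [Nat.add_sub_cancel, mul_comm, Nat.mul_add_div (by omega), Nat.div_eq_of_lt hj1]
        rfl
      have d2 : (qn q' * (w.length + 1) + j + 1 - 1) % (w.length + 1) = j := by
        rw [Nat.add_sub_cancel, mul_comm, Nat.mul_add_mod, Nat.mod_eq_of_lt hj1]
      unfold rsb
      rw [d1, if_pos (hD.hqn q')]
      unfold Tab.rs
      rw [if_neg (by rw [k3]; norm_num), if_neg (by rw [k3]; norm_num),
        if_neg (by rw [k3]; norm_num), if_pos ⟨k3, by omega⟩, k1, d1, d2, e3]
      rfl
  · have h1 : T.kd w (T.ac w.length) = 0 := by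
      unfold Tab.kd
      rw [if_neg (lt_irrefl _), if_pos rfl]
    unfold Tab.lf
    rw [if_pos h1]
  · have h1 : T.kd w (T.ac w.length) = 0 := by
      unfold Tab.kd
      rw [if_neg (lt_irrefl _), if_pos rfl]
    unfold Tab.wt
    rw [if_neg (by rw [h1]; norm_num)]
  · intro x hx
    have h1 : T.kd w x = 6 := by
      unfold Tab.kd
      rw [if_neg (by omega), if_neg (by omega)]
    constructor
    · unfold Tab.lf
      rw [if_neg (by rw [h1]; norm_num), if_neg (by rw [h1]; norm_num)]
    · unfold Tab.wt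
      rw [if_pos (Or.inr h1)]

end Pool.Agent.Helper41.DC
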